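import Mathlib

set_option autoImplicit false

/-! # Prime divisors of the values of integral polynomials (project NP, helper72) -/

namespace Pool.Agent.L7h72.NP

/-- a polynomial in one variable, not constant, has values divisible by arbitrarily large primes -/
theorem schur_one (g : Polynomial ℤ) (hg : g.natDegree ≠ 0) (B : ℕ) :
    ∃ p : ℕ, p.Prime ∧ B < p ∧ ∃ t : ℤ, (p : ℤ) ∣ g.eval t := by
  by_cases h0 : g.eval 0 = 0
  · obtain ⟨p, hp, hpp⟩ := Nat.exists_infinite_primes (B + 1)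
    exact ⟨p, hpp, by omega, 0, by rw [h0]; exact dvd_zero _⟩
  obtain ⟨m, hm⟩ : ∃ m : ℤ, m = g.eval 0 := ⟨_, rfl⟩
  rw [← hm] at h0
  -- a value different from `m` and `-m`
  obtain ⟨G, hG⟩ : ∃ G : Polynomial ℤ, G = (g - Polynomial.C m) * (g - Polynomial.C (-m)) := ⟨_, rfl⟩
  have hG0 : G ≠ 0 := by
    rw [hG]
    apply mul_ne_zero
    · intro h
      rw [sub_eq_zero] at h
      rw [h, Polynomial.natDegree_C] at hg
      exact hg rfl
    · intro h
      rw [sub_eq_zero] at h
      rw [h, Polynomial.natDegree_C] at hg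
      exact hg rfl
  have hq : m * (B.factorial : ℤ) ≠ 0 := mul_ne_zero h0 (by exact_mod_cast B.factorial_ne_zero)
  obtain ⟨s, hs⟩ : ∃ s : ℤ, G.eval (m * (B.factorial : ℤ) * s) ≠ 0 := by
    by_contra hcon
    push Not at hcon
    apply hG0
    apply Polynomial.eq_zero_of_infinite_isRoot
    refine Set.Infinite.mono (s := Set.range (fun s : ℤ => m * (B.factorial : ℤ) * s)) ?_ ?_
    · rintro _ ⟨s, rfl⟩
      exact hcon s
    · exact Set.infinite_range_of_injective (fun a b h => mul_left_cancel₀ hq h)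
  rw [hG, Polynomial.eval_mul, Polynomial.eval_sub, Polynomial.eval_sub, Polynomial.eval_C,
    Polynomial.eval_C] at hs
  obtain ⟨v, hv⟩ : ∃ v : ℤ, v = g.eval (m * (B.factorial : ℤ) * s) := ⟨_, rfl⟩
  rw [← hv] at hs
  have hs1 : v ≠ m := fun h => hs (by rw [h, sub_self, zero_mul])
  have hs2 : v ≠ -m := fun h => hs (by rw [h, sub_self, mul_zero])
  -- the quotient
  have h1 : m * (B.factorial : ℤ) * s - 0 ∣ g.eval (m * (B.factorial : ℤ) * s) - g.eval 0 :=
    Polynomial.sub_dvd_eval_sub _ _ _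
  rw [sub_zero, ← hv, ← hm] at h1
  obtain ⟨t, ht⟩ := h1
  obtain ⟨N, hN⟩ : ∃ N : ℤ, N = 1 + (B.factorial : ℤ) * s * t := ⟨_, rfl⟩
  have hvN : v = m * N := by
    rw [hN]
    linear_combination ht
  have hN1 : N.natAbs ≠ 1 := by
    intro h
    rcases Int.natAbs_eq_iff.1 h with h2 | h2
    · apply hs1
      rw [hvN, h2]
      simp
    · apply hs2
      rw [hvN, h2]
      simp
  obtain ⟨p, hp, hpN⟩ := Nat.exists_prime_and_dvd hN1
  have hpN' : (p : ℤ) ∣ N := Int.natCast_dvd.2 hpN
  refine ⟨p, hp, ?_, m * (B.factorial : ℤ) * s, ?_⟩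
  · by_contra hcon
    push Not at hcon
    have h2 : (p : ℤ) ∣ (B.factorial : ℤ) := by
      exact_mod_cast (hp.dvd_factorial).2 hcon
    have h3 : (p : ℤ) ∣ 1 := by
      have h4 : (p : ℤ) ∣ (B.factorial : ℤ) * s * t := (h2.mul_right _).mul_right _
      have h5 := dvd_sub hpN' h4
      have e : N - (B.factorial : ℤ) * s * t = 1 := by rw [hN]; ring
      rwa [e] at h5
    have h4 := Int.natAbs_dvd_natAbs.2 h3
    simp at h4
    exact hp.one_lt.ne' h4
  · rw [← hv, hvN]
    exact Dvd.dvd.mul_left hpN' _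

/-- a polynomial in several variables, not constant, has values divisible by arbitrarily large primes -/
theorem schur_mv {d : ℕ} (F : MvPolynomial (Fin d) ℤ) (hF : ∀ c : ℤ, F ≠ MvPolynomial.C c) (r : ℤ) (B : ℕ) :
    ∃ p : ℕ, p.Prime ∧ B < p ∧ ∃ x : Fin d → ℤ, (p : ℤ) ∣ MvPolynomial.eval x F - r := by
  obtain ⟨w, hw⟩ : ∃ w : Fin d → ℤ, MvPolynomial.eval w F ≠ MvPolynomial.eval 0 F := by
    by_contra hcon
    push Not at hcon
    apply hF (MvPolynomial.eval 0 F)
    exact MvPolynomial.funext fun x => by rw [hcon x, MvPolynomial.eval_C]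
  obtain ⟨g, hg⟩ : ∃ g : Polynomial ℤ, g = MvPolynomial.aeval (fun i => Polynomial.C (w i) * Polynomial.X) F -
    Polynomial.C r := ⟨_, rfl⟩
  have hgv : ∀ t : ℤ, g.eval t = MvPolynomial.eval (fun i => w i * t) F - r := by
    intro t
    rw [hg, Polynomial.eval_sub, Polynomial.eval_C]
    congr 1
    have h1 : Polynomial.eval t (MvPolynomial.aeval (fun i => Polynomial.C (w i) * Polynomial.X) F) =
        (Polynomial.evalRingHom t) (MvPolynomial.aeval (fun i => Polynomial.C (w i) * Polynomial.X) F) := rfl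
    rw [h1, MvPolynomial.aeval_def, MvPolynomial.hom_eval₂, MvPolynomial.eval, MvPolynomial.coe_eval₂Hom]
    congr 1
    · ext n
      simp
    · funext i
      simp
  obtain ⟨p, hp, hBp, t, ht⟩ := schur_one g (by
    intro h0
    rw [Polynomial.natDegree_eq_zero] at h0
    obtain ⟨c, hc⟩ := h0
    apply hw
    have h1 := hgv 1
    have h2 := hgv 0
    rw [← hc, Polynomial.eval_C] at h1 h2
    have e1 : (fun i => w i * 1) = w := by funext i; ring
    have e2 : (fun i => w i * 0) = (0 : Fin d → ℤ) := by funext i; simp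
    rw [e1] at h1
    rw [e2] at h2
    linarith) B
  rw [hgv] at ht
  exact ⟨p, hp, hBp, _, ht⟩

end Pool.Agent.L7h72.NP
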