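import Pool.Agent.Y837.SV.Dens2

set_option autoImplicit false
set_option linter.unusedSectionVars false
set_option linter.unusedVariables false

/-! # The colouring which avoids the bad colours modulo each prime (project NP, helper72) -/

namespace Pool.Agent.L7h72.NP

open Finset hiding dens
open Pool.Agent.Y837.SV

open scoped Classical

section

variable {ι : Type} {d : ℕ}

/-- the shifts which are good modulo `p` -/
noncomputable def gd (bad : ℕ → ι × ℤ → Prop) (S : Finset (ι × ℤ)) (p : ℕ) : Finset (ι × ℤ) :=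
  S.filter (fun k => ¬ bad p k)

theorem gd_mem {bad : ℕ → ι × ℤ → Prop} {S : Finset (ι × ℤ)} {p : ℕ} {k : ι × ℤ} :
    k ∈ gd bad S p ↔ k ∈ S ∧ ¬ bad p k := by
  unfold gd
  rw [mem_filter]

/-- the colouring: one of the killed good shifts, if there is one -/
noncomputable def colG (φ : ι → ∀ p : ℕ, (Fin d → ZMod p) → ZMod p) (bad : ℕ → ι × ℤ → Prop)
    (S : Finset (ι × ℤ)) (p : ℕ) (x : Fin d → ZMod p) : Option {k // k ∈ S} :=
  (colF φ (gd bad S p) p x).map (fun k => ⟨k.1, (gd_mem.1 k.2).1⟩)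

theorem colG_some {φ : ι → ∀ p : ℕ, (Fin d → ZMod p) → ZMod p} {bad : ℕ → ι × ℤ → Prop}
    {S : Finset (ι × ℤ)} {p : ℕ} {x : Fin d → ZMod p} {k : {k // k ∈ S}} (hk : ¬ bad p k.1) :
    colG φ bad S p x = some k ↔ colF φ (gd bad S p) p x = some ⟨k.1, gd_mem.2 ⟨k.2, hk⟩⟩ := by
  unfold colG
  rw [Option.map_eq_some_iff]
  constructor
  · rintro ⟨a, ha, hak⟩
    subst hak
    exact ha
  · intro h
    exact ⟨_, h, rfl⟩

theorem colG_bad {φ : ι → ∀ p : ℕ, (Fin d → ZMod p) → ZMod p} {bad : ℕ → ι × ℤ → Prop}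
    {S : Finset (ι × ℤ)} {p : ℕ} {x : Fin d → ZMod p} {k : {k // k ∈ S}} (hk : bad p k.1) :
    colG φ bad S p x ≠ some k := by
  unfold colG
  rw [Ne, Option.map_eq_some_iff]
  rintro ⟨a, ha, hak⟩
  have h1 := (gd_mem.1 a.2).2
  rw [← hak] at hk
  exact h1 hk

theorem colG_kill {φ : ι → ∀ p : ℕ, (Fin d → ZMod p) → ZMod p} {bad : ℕ → ι × ℤ → Prop}
    {S : Finset (ι × ℤ)} {p : ℕ} {x : Fin d → ZMod p} {k : {k // k ∈ S}} (h : colG φ bad S p x = some k) :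
    kill φ p k.1 x := by
  by_cases hk : bad p k.1
  · exact absurd h (colG_bad hk)
  · have h1 := colF_kill ((colG_some hk).1 h)
    exact h1

theorem dens_bad (φ : ι → ∀ p : ℕ, (Fin d → ZMod p) → ZMod p) (bad : ℕ → ι × ℤ → Prop)
    (S : Finset (ι × ℤ)) (p : ℕ) (k : {k // k ∈ S}) (hk : bad p k.1) :
    dens d (fun p => colG φ bad S p) p k = 0 := by
  unfold dens
  have : BB d p (fun x => colG φ bad S p x = some k) = ∅ := by
    rw [Finset.eq_empty_iff_forall_notMem]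
    intro b hb
    rw [mem_BB] at hb
    exact colG_bad hk hb.2
  rw [this]
  simp

theorem dens_good (φ : ι → ∀ p : ℕ, (Fin d → ZMod p) → ZMod p) (bad : ℕ → ι × ℤ → Prop)
    (S : Finset (ι × ℤ)) (p : ℕ) (k : {k // k ∈ S}) (hk : ¬ bad p k.1) :
    dens d (fun p => colG φ bad S p) p k =
      dens d (fun q => colF φ (gd bad S p) q) p ⟨k.1, gd_mem.2 ⟨k.2, hk⟩⟩ := by
  unfold dens
  have : BB d p (fun x => colG φ bad S p x = some k) =
      BB d p (fun x => colF φ (gd bad S p) p x = some ⟨k.1, gd_mem.2 ⟨k.2, hk⟩⟩) := by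
    ext b
    rw [mem_BB, mem_BB, colG_some hk]
  rw [this]

/-- the density of a good colour `k` is `1/p` up to a factor `1 + O(p^(-δ))` -/
theorem dens_bound3 (φ : ι → ∀ p : ℕ, (Fin d → ZMod p) → ZMod p) (bad : ℕ → ι × ℤ → Prop)
    (C δ : ℝ) (hC : 0 ≤ C) (hδ2 : δ ≤ 1 / 2) (p : ℕ) (hp : p.Prime)
    (S : Finset (ι × ℤ))
    (hU : ∀ k ∈ S, ¬ bad p k →
      |(p : ℝ) * (Nat.card {x : Fin d → ZMod p // φ k.1 p x = -((k.2 : ℤ) : ZMod p)} : ℝ) - (p : ℝ) ^ d| ≤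
        C * (p : ℝ) ^ d * (p : ℝ) ^ (-δ))
    (hP : ∀ k ∈ S, ∀ k' ∈ S, ¬ bad p k → ¬ bad p k' → k.1 ≠ k'.1 →
      (p : ℝ) ^ 2 * (Nat.card {x : Fin d → ZMod p // φ k.1 p x = -((k.2 : ℤ) : ZMod p) ∧
        φ k'.1 p x = -((k'.2 : ℤ) : ZMod p)} : ℝ) ≤ C * (p : ℝ) ^ d)
    (hS1 : ∀ k ∈ S, ∀ k' ∈ S, k.1 = k'.1 → k ≠ k' → ¬ (p : ℤ) ∣ k.2 - k'.2)
    (hcard : (S.card : ℝ) ^ 2 ≤ p) (k : {k // k ∈ S}) (hk : ¬ bad p k.1) :
    |(p : ℝ) * dens d (fun p => colG φ bad S p) p k - 1| ≤ 2 * C * (p : ℝ) ^ (-δ) := by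
  rw [dens_good φ bad S p k hk]
  refine dens_bound2 φ C δ hC hδ2 p hp (gd bad S p) ?_ ?_ ?_ ?_ _
  · intro k hk
    obtain ⟨h1, h2⟩ := gd_mem.1 hk
    exact hU k h1 h2
  · intro k hk k' hk' hne
    obtain ⟨h1, h2⟩ := gd_mem.1 hk
    obtain ⟨h3, h4⟩ := gd_mem.1 hk'
    exact hP k h1 k' h3 h2 h4 hne
  · intro k hk k' hk'
    exact hS1 k (gd_mem.1 hk).1 k' (gd_mem.1 hk').1
  · have h1 : (gd bad S p).card ≤ S.card := card_filter_le _ _
    have h2 : ((gd bad S p).card : ℝ) ≤ S.card := by exact_mod_cast h1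
    have h3 : ((gd bad S p).card : ℝ) ^ 2 ≤ (S.card : ℝ) ^ 2 := pow_le_pow_left₀ (Nat.cast_nonneg _) h2 2
    linarith

end

end Pool.Agent.L7h72.NP
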