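import Mathlib

set_option autoImplicit false

/-! # Common zeros of two irreducible polynomials in two variables (project NP, helper72) -/

open Polynomial

namespace Pool.Agent.L7h72.NP

section
variable {K : Type} [Field K]

theorem natDegree_det_le {n d : ℕ} (M : Matrix (Fin n) (Fin n) K[X]) (h : ∀ i j, (M i j).natDegree ≤ d) :
    M.det.natDegree ≤ n * d := by
  rw [Matrix.det_apply]
  apply natDegree_sum_le_of_forall_le
  intro σ _
  have h1 : (∏ i, M (σ i) i).natDegree ≤ n * d := by
    refine (natDegree_prod_le _ _).trans ?_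
    refine (Finset.sum_le_sum fun i _ => h (σ i) i).trans ?_
    rw [Finset.sum_const, Finset.card_univ, Fintype.card_fin, smul_eq_mul]
  rcases Int.units_eq_one_or (Equiv.Perm.sign σ) with h2 | h2
  · rw [h2, one_smul]
    exact h1
  · rw [h2, Units.neg_smul, one_smul, natDegree_neg]
    exact h1

theorem natDegree_resultant_le (P Q : K[X][X]) (d m n : ℕ) (hP : ∀ i, (P.coeff i).natDegree ≤ d)
    (hQ : ∀ i, (Q.coeff i).natDegree ≤ d) : (resultant P Q m n).natDegree ≤ (m + n) * d := by
  unfold resultant
  apply natDegree_det_le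
  intro i j
  unfold sylvester
  rw [Matrix.of_apply]
  refine Fin.addCases (fun j₁ => ?_) (fun j₁ => ?_) j
  · rw [Fin.addCases_left]
    split_ifs
    · exact hQ _
    · simp
  · rw [Fin.addCases_right]
    split_ifs
    · exact hP _
    · simp

/-- the number of the common zeros of two irreducible polynomials which are not associated -/
theorem pair_card (P Q : K[X][X]) (d : ℕ) (hPd : ∀ i, (P.coeff i).natDegree ≤ d)
    (hQd : ∀ i, (Q.coeff i).natDegree ≤ d) (hP : Irreducible P) (hQ : Irreducible Q)
    (hP0 : P.natDegree ≠ 0) (hQ0 : Q.natDegree ≠ 0) (a : K) (ha : a ≠ 0) (hPa : P.leadingCoeff = C a)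
    (hna : ¬ Associated P Q) (S : Finset (K × K))
    (hS : ∀ z ∈ S, evalEval z.1 z.2 P = 0 ∧ evalEval z.1 z.2 Q = 0) :
    S.card ≤ (P.natDegree + Q.natDegree) * d * P.natDegree := by
  classical
  obtain ⟨R, hR⟩ : ∃ R : K[X], R = resultant P Q := ⟨_, rfl⟩
  have hinj : Function.Injective (algebraMap K[X] (RatFunc K)) := IsFractionRing.injective _ _
  have hPp : P.IsPrimitive := hP.isPrimitive hP0
  have hQp : Q.IsPrimitive := hQ.isPrimitive hQ0
  have hR0 : R ≠ 0 := by
    intro h0
    have h1 : resultant (P.map (algebraMap K[X] (RatFunc K))) (Q.map (algebraMap K[X] (RatFunc K))) = 0 := by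
      rw [natDegree_map_eq_of_injective hinj, natDegree_map_eq_of_injective hinj, resultant_map_map,
        ← hR, h0, map_zero]
    rw [resultant_eq_zero_iff] at h1
    apply h1.2
    have hP' := (hPp.irreducible_iff_irreducible_map_fraction_map (K := RatFunc K)).1 hP
    rcases hP'.isCoprime_or_dvd (Q.map (algebraMap K[X] (RatFunc K))) with h2 | h2
    · exact h2
    · exfalso
      apply hna
      have h3 := hPp.dvd_of_fraction_map_dvd_fraction_map h2
      exact hP.associated_of_dvd hQ h3
  have hRd : R.natDegree ≤ (P.natDegree + Q.natDegree) * d := by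
    rw [hR]
    exact natDegree_resultant_le P Q d _ _ hPd hQd
  have hroot : ∀ z ∈ S, R.eval z.1 = 0 := by
    intro z hz
    obtain ⟨p, q, -, -, h⟩ := exists_mul_add_mul_eq_C_resultant P Q le_rfl le_rfl (Or.inl hP0)
    obtain ⟨h1, h2⟩ := hS z hz
    have h3 := congrArg (evalEval z.1 z.2) h
    rw [evalEval_add, evalEval_mul, evalEval_mul, h1, h2, zero_mul, zero_mul, add_zero, ← hR,
      evalEval_C] at h3
    exact h3.symm
  have himg : S.image Prod.fst ⊆ R.roots.toFinset := by
    intro x hx
    rw [Finset.mem_image] at hx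
    obtain ⟨z, hz, rfl⟩ := hx
    rw [Multiset.mem_toFinset, mem_roots hR0]
    exact hroot z hz
  have hfib : ∀ x ∈ S.image Prod.fst, (S.filter (fun z => z.1 = x)).card ≤ P.natDegree := by
    intro x _
    obtain ⟨p, hp⟩ : ∃ p : K[X], p = P.map (evalRingHom x) := ⟨_, rfl⟩
    have hpc : p.coeff P.natDegree = a := by
      rw [hp, coeff_map]
      have : P.coeff P.natDegree = C a := hPa
      rw [this]
      simp
    have hp0 : p ≠ 0 := by
      intro h
      rw [h, coeff_zero] at hpc
      exact ha hpc.symm
    have h1 : (S.filter (fun z => z.1 = x)).card ≤ p.roots.toFinset.card := by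
      apply Finset.card_le_card_of_injOn Prod.snd
      · intro z hz
        rw [Finset.mem_coe, Finset.mem_filter] at hz
        rw [Finset.mem_coe, Multiset.mem_toFinset, mem_roots hp0]
        have h2 := (hS z hz.1).1
        rw [hz.2] at h2
        show p.eval z.2 = 0
        rw [hp, map_evalRingHom_eval]
        exact h2
      · intro z hz w hw hzw
        rw [Finset.mem_coe, Finset.mem_filter] at hz hw
        exact Prod.ext (hz.2.trans hw.2.symm) hzw
    refine h1.trans ((Multiset.toFinset_card_le _).trans ((card_roots' p).trans ?_))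
    rw [hp]
    exact natDegree_map_le
  have h1 := Finset.card_le_mul_card_image (f := Prod.fst) S P.natDegree hfib
  have h2 : (S.image Prod.fst).card ≤ (P.natDegree + Q.natDegree) * d :=
    (Finset.card_le_card himg).trans ((Multiset.toFinset_card_le _).trans ((card_roots' R).trans hRd))
  calc S.card ≤ P.natDegree * (S.image Prod.fst).card := h1
    _ ≤ P.natDegree * ((P.natDegree + Q.natDegree) * d) := Nat.mul_le_mul_left _ h2
    _ = _ := by ring

end

end Pool.Agent.L7h72.NP
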