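import Pool.Agent.L7h72.NP.Fib2
import Pool.Agent.L7h72.NP.Pair
import Pool.Agent.L7h72.NP.Crit4

set_option autoImplicit false
set_option linter.unusedVariables false

/-! # Finite families of noncomposite polynomials in two variables (project NP, helper72) -/

open Polynomial

namespace Pool.Agent.L7h72.NP

open Pool.Agent.H256R2.SC (ff)

/-- the size of the coefficients -/
noncomputable def hgt (F : MvPolynomial (Fin 2) ℤ) : ℤ := ∑ m ∈ F.support, |F.coeff m|

theorem hgt_nonneg (F : MvPolynomial (Fin 2) ℤ) : 0 ≤ hgt F :=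
  Finset.sum_nonneg fun _ _ => abs_nonneg _

theorem le_hgt (F : MvPolynomial (Fin 2) ℤ) (m : Fin 2 →₀ ℕ) : |F.coeff m| ≤ hgt F := by
  by_cases h : m ∈ F.support
  · exact Finset.single_le_sum (f := fun m => |F.coeff m|) (fun _ _ => abs_nonneg _) h
  · rw [MvPolynomial.notMem_support_iff.1 h, abs_zero]
    exact hgt_nonneg F

/-- associated fibres modulo a large prime come from proportional polynomials -/
theorem rel_of_assoc {F G : MvPolynomial (Fin 2) ℤ} (hF0 : F.coeff 0 = 0) (hG0 : G.coeff 0 = 0)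
    (hF : F ≠ 0) (hG : G ≠ 0) {k : Type} [Field k] {p : ℕ} [CharP k p] (hp : 2 * hgt F * hgt G < p)
    (N : ℕ) (r s : k)
    (h : Associated (Ph k N (MvPolynomial.map (Int.castRingHom k) F - MvPolynomial.C r))
      (Ph k N (MvPolynomial.map (Int.castRingHom k) G - MvPolynomial.C s))) :
    ∃ a b : ℤ, a ≠ 0 ∧ b ≠ 0 ∧ MvPolynomial.C a * F = MvPolynomial.C b * G := by
  obtain ⟨U, hU⟩ := h
  obtain ⟨v, hv, hvU⟩ := Polynomial.isUnit_iff.1 U.isUnit
  obtain ⟨u, hu, huv⟩ := Polynomial.isUnit_iff.1 hv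
  have h1 : (MvPolynomial.map (Int.castRingHom k) F - MvPolynomial.C r) * MvPolynomial.C u =
      MvPolynomial.map (Int.castRingHom k) G - MvPolynomial.C s := by
    apply (PhE k N).injective
    rw [map_mul]
    simp only [PhE_apply]
    rw [Ph_C, huv, hvU]
    exact hU
  have h2 : ∀ m : Fin 2 →₀ ℕ, m ≠ 0 → ((F.coeff m : ℤ) : k) * u = ((G.coeff m : ℤ) : k) := by
    intro m hm
    have h3 := congrArg (MvPolynomial.coeff m) h1
    rw [mul_comm, MvPolynomial.coeff_C_mul, MvPolynomial.coeff_sub, MvPolynomial.coeff_sub,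
      MvPolynomial.coeff_map, MvPolynomial.coeff_map, MvPolynomial.coeff_C, MvPolynomial.coeff_C,
      if_neg (Ne.symm hm), if_neg (Ne.symm hm), sub_zero, sub_zero] at h3
    rw [mul_comm]
    exact h3
  have h3 : ∀ m m' : Fin 2 →₀ ℕ, m ≠ 0 → m' ≠ 0 → F.coeff m * G.coeff m' = F.coeff m' * G.coeff m := by
    intro m m' hm hm'
    have h4 : ((F.coeff m * G.coeff m' - F.coeff m' * G.coeff m : ℤ) : k) = 0 := by
      push_cast
      rw [← h2 m hm, ← h2 m' hm']
      ring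
    rw [CharP.intCast_eq_zero_iff k p] at h4
    have h5 : |F.coeff m * G.coeff m' - F.coeff m' * G.coeff m| < p := by
      refine lt_of_le_of_lt ?_ hp
      refine (abs_sub _ _).trans ?_
      rw [abs_mul, abs_mul]
      have q1 := mul_le_mul (le_hgt F m) (le_hgt G m') (abs_nonneg _) (hgt_nonneg F)
      have q2 := mul_le_mul (le_hgt F m') (le_hgt G m) (abs_nonneg _) (hgt_nonneg F)
      linarith
    have h6 := Int.eq_zero_of_abs_lt_dvd h4 h5
    linarith
  obtain ⟨m', hm'⟩ : ∃ m', G.coeff m' ≠ 0 := by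
    by_contra hcon
    push Not at hcon
    apply hG
    ext m
    rw [hcon m, MvPolynomial.coeff_zero]
  have hm'0 : m' ≠ 0 := by
    rintro rfl
    exact hm' hG0
  have h4 : MvPolynomial.C (G.coeff m') * F = MvPolynomial.C (F.coeff m') * G := by
    ext m
    rw [MvPolynomial.coeff_C_mul, MvPolynomial.coeff_C_mul]
    by_cases hm : m = 0
    · rw [hm, hF0, hG0, mul_zero, mul_zero]
    · have := h3 m m' hm hm'0
      rw [mul_comm, this]
  refine ⟨_, _, hm', ?_, h4⟩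
  intro h5
  rw [h5, map_zero, zero_mul] at h4
  rcases mul_eq_zero.1 h4 with h6 | h6
  · rw [← MvPolynomial.C_0] at h6
    exact hm' (MvPolynomial.C_injective _ _ h6)
  · exact hF h6

theorem eval_up {p : ℕ} [Fact p.Prime] (F : MvPolynomial (Fin 2) ℤ) (x : Fin 2 → ZMod p) (N : ℕ)
    (k : Type) [Field k] [Algebra (ZMod p) k] (r : ZMod p) (h : MvPolynomial.aeval x F = r) :
    evalEval (algebraMap (ZMod p) k (x 0 - x 1 ^ N)) (algebraMap (ZMod p) k (x 1))
      (Ph k N (MvPolynomial.map (Int.castRingHom k) F - MvPolynomial.C (algebraMap (ZMod p) k r))) = 0 := by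
  rw [Ph_eval, map_sub, MvPolynomial.eval_C, sub_eq_zero, ← h]
  have e : ![algebraMap (ZMod p) k (x 0 - x 1 ^ N) + (algebraMap (ZMod p) k (x 1)) ^ N,
      algebraMap (ZMod p) k (x 1)] = algebraMap (ZMod p) k ∘ x := by
    funext i
    fin_cases i
    · simp
    · simp
  rw [e, MvPolynomial.eval_map, MvPolynomial.aeval_def, MvPolynomial.eval₂_comp_left]
  congr 1
  exact RingHom.ext_int _ _

theorem count_pair {p : ℕ} [Fact p.Prime] (F G : MvPolynomial (Fin 2) ℤ) (N M : ℕ) (r s : ZMod p)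
    (hMF : (PF N F).natDegree ≤ M) (hMG : (PF N G).natDegree ≤ M) (hdF : idg (PF N F) ≤ M)
    (hdG : idg (PF N G) ≤ M) (ψ θ : ℤ[X] →+* AlgebraicClosure (ZMod p))
    (hψ : ψ X = algebraMap _ _ r) (hθ : θ X = algebraMap _ _ s)
    (hP : Irreducible ((PF N F).map (mapRingHom ψ))) (hQ : Irreducible ((PF N G).map (mapRingHom θ)))
    (b : AlgebraicClosure (ZMod p)) (hb : b ≠ 0) (hl : ((PF N F).map (mapRingHom ψ)).leadingCoeff = C b)
    (hP0 : ((PF N F).map (mapRingHom ψ)).natDegree ≠ 0)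
    (hQ0 : ((PF N G).map (mapRingHom θ)).natDegree ≠ 0)
    (hna : ¬ Associated ((PF N F).map (mapRingHom ψ)) ((PF N G).map (mapRingHom θ))) :
    Nat.card {x : Fin 2 → ZMod p // MvPolynomial.aeval x F = r ∧ MvPolynomial.aeval x G = s} ≤
      2 * M ^ 3 := by
  classical
  obtain ⟨T, hT⟩ : ∃ T : Finset (Fin 2 → ZMod p), T = Finset.univ.filter (fun x =>
    MvPolynomial.aeval x F = r ∧ MvPolynomial.aeval x G = s) := ⟨_, rfl⟩
  have hcard : Nat.card {x : Fin 2 → ZMod p // MvPolynomial.aeval x F = r ∧ MvPolynomial.aeval x G = s} =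
      T.card := by
    rw [Nat.card_eq_fintype_card, Fintype.card_subtype, hT]
  rw [hcard]
  have hinj : Function.Injective (algebraMap (ZMod p) (AlgebraicClosure (ZMod p))) :=
    (algebraMap (ZMod p) (AlgebraicClosure (ZMod p))).injective
  obtain ⟨e, he⟩ : ∃ e : (Fin 2 → ZMod p) → AlgebraicClosure (ZMod p) × AlgebraicClosure (ZMod p),
    e = fun x => (algebraMap _ _ (x 0 - x 1 ^ N), algebraMap _ _ (x 1)) := ⟨_, rfl⟩
  have hei : Function.Injective e := by
    intro x y hxy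
    rw [he] at hxy
    simp only [Prod.mk.injEq] at hxy
    have h1 := hinj hxy.1
    have h2 := hinj hxy.2
    rw [h2] at h1
    have h3 : x 0 = y 0 := by linear_combination h1
    funext i
    fin_cases i
    · exact h3
    · exact h2
  have h1 := pair_card ((PF N F).map (mapRingHom ψ)) ((PF N G).map (mapRingHom θ)) M
    (fun i => (map_idg _ ψ i).trans hdF) (fun i => (map_idg _ θ i).trans hdG) hP hQ hP0 hQ0 b hb hl hna
    (T.image e) (by
      intro z hz
      rw [Finset.mem_image] at hz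
      obtain ⟨x, hx, rfl⟩ := hz
      rw [hT, Finset.mem_filter] at hx
      obtain ⟨-, hx1, hx2⟩ := hx
      constructor
      · rw [PF_map, hψ, he]
        exact eval_up F x N _ r hx1
      · rw [PF_map, hθ, he]
        exact eval_up G x N _ s hx2)
  rw [Finset.card_image_of_injective _ hei] at h1
  refine h1.trans ?_
  have h2 : ((PF N F).map (mapRingHom ψ)).natDegree ≤ M := natDegree_map_le.trans hMF
  have h3 : ((PF N G).map (mapRingHom θ)).natDegree ≤ M := natDegree_map_le.trans hMG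
  calc _ ≤ (M + M) * M * M := by
        apply Nat.mul_le_mul _ h2
        exact Nat.mul_le_mul_right _ (Nat.add_le_add h2 h3)
    _ = 2 * M ^ 3 := by ring

/-- **the theorem for a family of pairwise non-proportional polynomials** -/
theorem family {ι : Type} [Fintype ι] (F : ι → MvPolynomial (Fin 2) ℤ) (hNC : ∀ j, NC (F j))
    (h0 : ∀ j, (F j).coeff 0 = 0)
    (hind : ∀ i j, ∀ a b : ℤ, a ≠ 0 → b ≠ 0 → MvPolynomial.C a * F i = MvPolynomial.C b * F j → i = j)
    (A : ℕ) :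
    ∃ c : ℝ, 0 < c ∧ ∃ Z₀ : ℝ, ∀ Z : ℕ, Z₀ ≤ Z → ∀ M : Fin 2 → ℤ, ∃ x : Fin 2 → ℤ,
      (∀ i, M i < x i ∧ x i ≤ M i + Z) ∧ ∀ j, ∀ h : ℤ, |(h : ℝ)| ≤ c * ff Z →
        ∃ p : ℕ, p.Prime ∧ A < p ∧ (p : ℝ) ≤ (Z : ℝ) ^ (1 / 10 : ℝ) ∧
          (p : ℤ) ∣ MvPolynomial.eval x (F j) + h := by
  obtain ⟨N, hNd⟩ : ∃ N : ℕ, ∀ j, (F j).totalDegree < N := by
    refine ⟨∑ j, ((F j).totalDegree + 1), fun j => ?_⟩
    have := Finset.single_le_sum (f := fun j => (F j).totalDegree + 1) (fun _ _ => Nat.zero_le _)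
      (Finset.mem_univ j)
    omega
  have hFne : ∀ j, F j ≠ 0 := by
    intro j h
    obtain ⟨m, -, hm⟩ := NC_nonconst (hNC j)
    rw [h, MvPolynomial.coeff_zero] at hm
    exact hm rfl
  choose D Cc hD hCc hfib using fun j => fiber (hNC j) (hNd j)
  obtain ⟨M₀, hM₀⟩ : ∃ M₀ : ℕ, ∀ j, (PF N (F j)).natDegree ≤ M₀ ∧ idg (PF N (F j)) ≤ M₀ := by
    refine ⟨∑ j, ((PF N (F j)).natDegree + idg (PF N (F j))), fun j => ?_⟩
    have := Finset.single_le_sum (f := fun j => (PF N (F j)).natDegree + idg (PF N (F j)))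
      (fun _ _ => Nat.zero_le _) (Finset.mem_univ j)
    constructor <;> omega
  obtain ⟨C₀, hC₀⟩ : ∃ C₀ : ℝ, ∀ j, Cc j ≤ C₀ := by
    refine ⟨∑ j, Cc j, fun j => ?_⟩
    exact Finset.single_le_sum (f := fun j => Cc j) (fun j _ => hCc j) (Finset.mem_univ j)
  obtain ⟨B₀, hB₀⟩ : ∃ B₀ : ℕ, ∀ i j, 2 * hgt (F i) * hgt (F j) ≤ B₀ := by
    refine ⟨∑ i, ∑ j, (2 * hgt (F i) * hgt (F j)).natAbs, fun i j => ?_⟩
    have q1 := Finset.single_le_sum (f := fun j => (2 * hgt (F i) * hgt (F j)).natAbs)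
      (fun _ _ => Nat.zero_le _) (Finset.mem_univ j)
    have q2 := Finset.single_le_sum (f := fun i => ∑ j, (2 * hgt (F i) * hgt (F j)).natAbs)
      (fun _ _ => Nat.zero_le _) (Finset.mem_univ i)
    have q3 : 2 * hgt (F i) * hgt (F j) ≤ ((2 * hgt (F i) * hgt (F j)).natAbs : ℤ) := Int.le_natAbs
    have q4 : ((2 * hgt (F i) * hgt (F j)).natAbs : ℤ) ≤
        ((∑ i, ∑ j, (2 * hgt (F i) * hgt (F j)).natAbs : ℕ) : ℤ) := by
      exact_mod_cast q1.trans q2
    exact q3.trans q4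
  refine crit4 2 F hFne ?_ D hD A B₀ (max C₀ (2 * (M₀ : ℝ) ^ 3)) (1 / 2) (by norm_num) ?_ ?_
  · intro j
    rw [MvPolynomial.eval_zero, MvPolynomial.constantCoeff_eq]
    exact h0 j
  · intro p hp hBp j r hr
    haveI : Fact p.Prime := ⟨hp⟩
    obtain ⟨-, h1⟩ := hfib j p r hr
    have hp0 : (0 : ℝ) < p := by exact_mod_cast hp.pos
    have e1 : (p : ℝ) * (Nat.card {x : Fin 2 → ZMod p // MvPolynomial.aeval x (F j) = r} : ℝ) - (p : ℝ) ^ 2 =
        p * ((Nat.card {x : Fin 2 → ZMod p // MvPolynomial.aeval x (F j) = r} : ℝ) - p) := by ring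
    rw [e1, abs_mul, abs_of_pos hp0]
    have e2 : (p : ℝ) ^ 2 * (p : ℝ) ^ (-(1 / 2 : ℝ)) = p * √(p : ℝ) := by
      rw [Real.sqrt_eq_rpow, ← Real.rpow_natCast, ← Real.rpow_add hp0]
      nth_rewrite 2 [← Real.rpow_one (p : ℝ)]
      rw [← Real.rpow_add hp0]
      norm_num
    rw [mul_assoc, e2]
    have h2 : Cc j * √(p : ℝ) ≤ max C₀ (2 * (M₀ : ℝ) ^ 3) * √(p : ℝ) :=
      mul_le_mul_of_nonneg_right ((hC₀ j).trans (le_max_left _ _)) (Real.sqrt_nonneg _)
    calc (p : ℝ) * |_| ≤ p * (Cc j * √(p : ℝ)) := mul_le_mul_of_nonneg_left h1 hp0.le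
      _ ≤ p * (max C₀ (2 * (M₀ : ℝ) ^ 3) * √(p : ℝ)) := mul_le_mul_of_nonneg_left h2 hp0.le
      _ = _ := by ring
  · intro p hp hBp i j hij r s hr hs
    haveI : Fact p.Prime := ⟨hp⟩
    obtain ⟨⟨ψ, hψ, hP, ⟨b, hb, hl⟩, hP0⟩, -⟩ := hfib i p r hr
    obtain ⟨⟨θ, hθ, hQ, -, hQ0⟩, -⟩ := hfib j p s hs
    haveI : CharP (AlgebraicClosure (ZMod p)) p := charP_of_injective_algebraMap
      (algebraMap (ZMod p) (AlgebraicClosure (ZMod p))).injective p
    have hna : ¬ Associated ((PF N (F i)).map (mapRingHom ψ)) ((PF N (F j)).map (mapRingHom θ)) := by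
      intro h
      rw [PF_map, PF_map] at h
      have hlt : 2 * hgt (F i) * hgt (F j) < p := by
        have q1 := hB₀ i j
        have q2 : (B₀ : ℤ) < p := by exact_mod_cast hBp
        omega
      obtain ⟨a, b, ha, hb, hab⟩ := rel_of_assoc (h0 i) (h0 j) (hFne i) (hFne j) hlt N _ _ h
      exact hij (hind i j a b ha hb hab)
    have h1 := count_pair (F i) (F j) N M₀ r s (hM₀ i).1 (hM₀ j).1 (hM₀ i).2 (hM₀ j).2 ψ θ hψ hθ hP hQ
      b hb hl hP0 hQ0 hna
    have h2 : (Nat.card {x : Fin 2 → ZMod p // MvPolynomial.aeval x (F i) = r ∧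
        MvPolynomial.aeval x (F j) = s} : ℝ) ≤ 2 * (M₀ : ℝ) ^ 3 := by exact_mod_cast h1
    rw [mul_comm]
    apply mul_le_mul_of_nonneg_right _ (by positivity)
    exact h2.trans (le_max_right _ _)

end Pool.Agent.L7h72.NP
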