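import Mathlib

set_option autoImplicit false

/-! # An irreducible special fibre forces an irreducible generic fibre (project NP, helper72) -/

open Polynomial

namespace Pool.Agent.L7h72.NP

/-- homomorphisms to algebraically closed fields extend to integral extensions -/
theorem ext_hom {R S K : Type} [CommRing R] [CommRing S] [Algebra R S] [FaithfulSMul R S]
    [Algebra.IsIntegral R S] [Field K] [IsAlgClosed K] (ψ : R →+* K) :
    ∃ ψ' : S →+* K, ψ'.comp (algebraMap R S) = ψ := by
  let P := RingHom.ker ψ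
  haveI : P.IsPrime := RingHom.ker_isPrime ψ
  obtain ⟨⟨Q, hQ, hQP⟩⟩ := Ideal.nonempty_primesOver (S := S) P
  haveI : Q.IsPrime := hQ
  haveI : Q.LiesOver P := hQP
  letI : Algebra (R ⧸ P) K := (RingHom.kerLift ψ).toAlgebra
  haveI : FaithfulSMul (R ⧸ P) K := (faithfulSMul_iff_algebraMap_injective _ _).2
    (RingHom.kerLift_injective ψ)
  haveI : Algebra.IsAlgebraic (R ⧸ P) (S ⧸ Q) := inferInstance
  let e : (S ⧸ Q) →ₐ[R ⧸ P] K := IsAlgClosed.lift
  refine ⟨e.toRingHom.comp (Ideal.Quotient.mk Q), ?_⟩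
  ext r
  have h1 : Ideal.Quotient.mk Q (algebraMap R S r) = algebraMap (R ⧸ P) (S ⧸ Q) (Ideal.Quotient.mk P r) := rfl
  show e (Ideal.Quotient.mk Q (algebraMap R S r)) = ψ r
  rw [h1, e.commutes]
  rfl

section
attribute [local instance] Polynomial.algebra

theorem coeffs_int {A W : Type} [CommRing A] [Field W] [Algebra A W] (f : A[X][X]) (hf : f.Monic)
    (g : W[X][X]) (hg : g.Monic) (h : g ∣ f.map (mapRingHom (algebraMap A W))) (i j : ℕ) :
    IsIntegral A ((g.coeff i).coeff j) := by
  have h1 : IsIntegral A[X] (g.coeff i) := Polynomial.isIntegral_coeff_of_dvd f g hf hg h i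
  exact Polynomial.isIntegral_iff_isIntegral_coeff.1 h1 j

end

/-- **spreading out**: an irreducible special fibre forces an irreducible generic fibre -/
theorem spread {A K W : Type} [CommRing A] [Field K] [IsAlgClosed K] [Field W] [Algebra A W]
    [FaithfulSMul A W] (f : A[X][X]) (hf : f.Monic) (h0 : f.natDegree ≠ 0) (ψ : A →+* K)
    (hirr : Irreducible (f.map (mapRingHom ψ))) :
    Irreducible (f.map (mapRingHom (algebraMap A W))) := by
  have hne : ∀ (T : Type) [CommRing T] [IsDomain T] (θ : A[X] →+* T), f.map θ ≠ 1 := by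
    intro T _ _ θ h1
    apply h0
    rw [← hf.natDegree_map θ, h1, natDegree_one]
  rw [(hf.map _).irreducible_iff_lt_natDegree_lt (hne _ _)] at hirr ⊢
  intro q hq hdeg hdvd
  let A' := integralClosure A W
  have hlift : q ∈ lifts (mapRingHom (algebraMap A' W)) := by
    rw [lifts_iff_coeff_lifts]
    intro i
    have h1 : q.coeff i ∈ lifts (algebraMap A' W) := by
      rw [lifts_iff_coeff_lifts]
      intro j
      exact ⟨⟨(q.coeff i).coeff j, coeffs_int f hf q hq hdvd i j⟩, rfl⟩
    rw [mem_lifts] at h1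
    obtain ⟨a, ha⟩ := h1
    exact ⟨a, ha⟩
  obtain ⟨q', hq'1, hq'2, hq'3⟩ := lifts_and_natDegree_eq_and_monic hlift hq
  have hinj : Function.Injective (mapRingHom (algebraMap A' W)) :=
    Polynomial.map_injective _ Subtype.val_injective
  have hcomp : f.map (mapRingHom (algebraMap A W)) =
      (f.map (mapRingHom (algebraMap A A'))).map (mapRingHom (algebraMap A' W)) := by
    rw [Polynomial.map_map]
    congr 1
    rw [mapRingHom_comp]
    rfl
  have hdvd' : q' ∣ f.map (mapRingHom (algebraMap A A')) := by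
    rw [← Polynomial.map_dvd_map _ hinj hq'3, hq'1, ← hcomp]
    exact hdvd
  haveI : FaithfulSMul A A' := (faithfulSMul_iff_algebraMap_injective _ _).2 (by
    intro a b hab
    exact FaithfulSMul.algebraMap_injective A W (congrArg Subtype.val hab))
  obtain ⟨ψ', hψ'⟩ := ext_hom (R := A) (S := A') ψ
  have hdvd'' : q'.map (mapRingHom ψ') ∣ f.map (mapRingHom ψ) := by
    have h1 := Polynomial.map_dvd (mapRingHom ψ') hdvd'
    rw [Polynomial.map_map, mapRingHom_comp, hψ'] at h1
    exact h1
  refine hirr (q'.map (mapRingHom ψ')) (hq'3.map _) ?_ hdvd''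
  rw [hq'3.natDegree_map, hq'2, hf.natDegree_map]
  rw [hf.natDegree_map] at hdeg
  exact hdeg

end Pool.Agent.L7h72.NP
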