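import Pool.Agent.L7h72.NP.Iso
import Pool.Agent.L7h72.NP.Spread
import Pool.Agent.R410.LW.BN1
import Pool.Agent.R410.LW.Bez
import Pool.Agent.R410.PW.Weil

set_option autoImplicit false
set_option linter.unusedVariables false

/-! # The fibres of a noncomposite polynomial in two variables (project NP, helper72) -/

open Polynomial

namespace Pool.Agent.L7h72.NP

/-- the polynomial becomes irreducible over the complex numbers after the subtraction of a suitable
constant -/
def NC (F : MvPolynomial (Fin 2) ℤ) : Prop :=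
  ∃ t : ℂ, Irreducible (MvPolynomial.map (Int.castRingHom ℂ) F - MvPolynomial.C t)

/-- the generic fibre -/
noncomputable def GF (F : MvPolynomial (Fin 2) ℤ) : MvPolynomial (Fin 2) ℤ[X] :=
  MvPolynomial.map C F - MvPolynomial.C X

/-- the generic fibre in the new coordinates -/
noncomputable def PF (N : ℕ) (F : MvPolynomial (Fin 2) ℤ) : ℤ[X][X][X] := Ph ℤ[X] N (GF F)

/-- the generic fibre in the new coordinates, monic -/
noncomputable def fm (N : ℕ) (F : MvPolynomial (Fin 2) ℤ) : ℤ[X][X][X] := integralNormalization (PF N F)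

theorem NC_nonconst {F : MvPolynomial (Fin 2) ℤ} (h : NC F) : ∃ m ≠ 0, F.coeff m ≠ 0 := by
  obtain ⟨t, ht⟩ := h
  by_contra hcon
  push Not at hcon
  have h1 : F = MvPolynomial.C (F.coeff 0) := by
    ext m
    rw [MvPolynomial.coeff_C]
    split_ifs with hm
    · rw [hm]
    · exact hcon m (Ne.symm hm)
  rw [h1, MvPolynomial.map_C, ← map_sub] at ht
  obtain ⟨c, hc⟩ : ∃ c : ℂ, c = (Int.castRingHom ℂ) (F.coeff 0) - t := ⟨_, rfl⟩
  rw [← hc] at ht
  by_cases hc0 : c = 0
  · rw [hc0, map_zero] at ht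
    exact not_irreducible_zero ht
  · exact ht.not_isUnit ((isUnit_iff_ne_zero.2 hc0).map MvPolynomial.C)

theorem totalDegree_map_le' {R S : Type} [CommRing R] [CommRing S] (f : R →+* S)
    (F : MvPolynomial (Fin 2) R) : (MvPolynomial.map f F).totalDegree ≤ F.totalDegree := by
  unfold MvPolynomial.totalDegree
  exact Finset.sup_mono (MvPolynomial.support_map_subset _ _)

theorem GF_coeff (F : MvPolynomial (Fin 2) ℤ) (m : Fin 2 →₀ ℕ) (hm : m ≠ 0) :
    (GF F).coeff m = C (F.coeff m) := by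
  unfold GF
  rw [MvPolynomial.coeff_sub, MvPolynomial.coeff_map, MvPolynomial.coeff_C, if_neg (Ne.symm hm), sub_zero]

theorem PF_lead {N : ℕ} {F : MvPolynomial (Fin 2) ℤ} (hN : F.totalDegree < N)
    (hF : ∃ m ≠ 0, F.coeff m ≠ 0) : ∃ a : ℤ, a ≠ 0 ∧ (PF N F).leadingCoeff = C (C a) ∧
      (PF N F).natDegree ≠ 0 := by
  obtain ⟨m₀, hm₀, hF₀⟩ := hF
  have h1 : (GF F).coeff m₀ ≠ 0 := by
    rw [GF_coeff F m₀ hm₀, Ne, C_eq_zero]
    exact hF₀
  have hG0 : GF F ≠ 0 := by
    intro h
    rw [h, MvPolynomial.coeff_zero] at h1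
    exact h1 rfl
  have hdeg : (GF F).totalDegree < N := by
    refine lt_of_le_of_lt ?_ hN
    unfold GF
    refine (MvPolynomial.totalDegree_sub_C_le _ _).trans ?_
    exact totalDegree_map_le' _ _
  have hN0 : 0 < N := by omega
  obtain ⟨m, hm, hmax, hd, hl⟩ := Ph_lead N (GF F) hG0 hdeg
  have hwt : wt N m ≠ 0 := by
    have h2 := hmax m₀ (MvPolynomial.mem_support_iff.2 h1)
    have h3 : 0 < wt N m₀ := by
      rw [Nat.pos_iff_ne_zero]
      intro h
      unfold wt at h
      apply hm₀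
      have h4 : N * m₀ 0 = 0 := by omega
      have h5 : m₀ 0 = 0 := by
        rcases Nat.mul_eq_zero.1 h4 with h5 | h5
        · omega
        · exact h5
      have h6 : m₀ 1 = 0 := by omega
      ext i
      fin_cases i
      · exact h5
      · exact h6
    omega
  have hm0 : m ≠ 0 := by
    rintro rfl
    apply hwt
    simp [wt]
  refine ⟨F.coeff m, ?_, ?_, ?_⟩
  · intro h
    have h2 := MvPolynomial.mem_support_iff.1 hm
    rw [GF_coeff F m hm0, h, C_0] at h2
    exact h2 rfl
  · rw [PF, hl, GF_coeff F m hm0]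
  · rw [PF, hd]
    exact hwt

theorem PF_map {K : Type} [CommRing K] (N : ℕ) (F : MvPolynomial (Fin 2) ℤ) (ψ : ℤ[X] →+* K) :
    (PF N F).map (mapRingHom ψ) =
      Ph K N (MvPolynomial.map (Int.castRingHom K) F - MvPolynomial.C (ψ X)) := by
  have h : ψ.comp (C : ℤ →+* ℤ[X]) = Int.castRingHom K := RingHom.ext_int _ _
  unfold PF GF
  rw [← Ph_map, map_sub, MvPolynomial.map_map, MvPolynomial.map_C, h]

section
variable {K : Type} [Field K]

theorem iN_comp (Q : K[X][X]) (h : Q.natDegree ≠ 0) :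
    (integralNormalization Q).comp (C Q.leadingCoeff * X) =
      C Q.leadingCoeff ^ (Q.natDegree - 1) * Q := by
  have h1 := integralNormalization_eval₂_leadingCoeff_mul (p := Q) (by omega) (C : K[X] →+* K[X][X]) X
  rw [eval₂_C_X] at h1
  exact h1

theorem iN_irr (Q : K[X][X]) (b : K) (hb : b ≠ 0) (hl : Q.leadingCoeff = C b) (h : Q.natDegree ≠ 0) :
    Irreducible (integralNormalization Q) ↔ Irreducible Q := by
  letI : Invertible (C b : K[X]) := ⟨C b⁻¹, by rw [← C_mul, inv_mul_cancel₀ hb, C_1],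
    by rw [← C_mul, mul_inv_cancel₀ hb, C_1]⟩
  have h1 : algEquivCMulXAddC (C b : K[X]) 0 (integralNormalization Q) =
      C Q.leadingCoeff ^ (Q.natDegree - 1) * Q := by
    rw [algEquivCMulXAddC_apply, C_0, add_zero, ← iN_comp Q h, hl]
    rfl
  have h2 : Irreducible (algEquivCMulXAddC (C b : K[X]) 0 (integralNormalization Q)) ↔
      Irreducible (integralNormalization Q) :=
    MulEquiv.irreducible_iff (algEquivCMulXAddC (C b : K[X]) 0)
  rw [← h2, h1, hl]
  have hu : IsUnit (C (C b) ^ (Q.natDegree - 1) : K[X][X]) := by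
    apply IsUnit.pow
    exact ((isUnit_iff_ne_zero.2 hb).map C).map C
  exact irreducible_isUnit_mul hu

theorem iN_eval (Q : K[X][X]) (b : K) (hb : b ≠ 0) (hl : Q.leadingCoeff = C b) (h : Q.natDegree ≠ 0)
    (x y : K) : evalEval x (b * y) (integralNormalization Q) = 0 ↔ evalEval x y Q = 0 := by
  have h1 := integralNormalization_eval₂_leadingCoeff_mul (p := Q) (by omega) (evalRingHom x) y
  rw [hl, coe_evalRingHom, eval_C, eval₂_evalRingHom] at h1
  rw [h1]
  constructor
  · intro h2
    rcases mul_eq_zero.1 h2 with h3 | h3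
    · exact absurd (eq_zero_of_pow_eq_zero h3) hb
    · exact h3
  · intro h2
    rw [h2, mul_zero]

end

/-- the map of the generic fibre to a special one -/
theorem fm_spec {N : ℕ} {F : MvPolynomial (Fin 2) ℤ} {a : ℤ} (hl : (PF N F).leadingCoeff = C (C a))
    (h0 : (PF N F).natDegree ≠ 0) {K : Type} [Field K] (ψ : ℤ[X] →+* K) (ha : (a : K) ≠ 0) :
    (fm N F).map (mapRingHom ψ) = integralNormalization ((PF N F).map (mapRingHom ψ)) ∧
      ((PF N F).map (mapRingHom ψ)).leadingCoeff = C (a : K) ∧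
      ((PF N F).map (mapRingHom ψ)).natDegree ≠ 0 := by
  have h1 : mapRingHom ψ (PF N F).leadingCoeff = C (a : K) := by
    rw [hl, coe_mapRingHom, Polynomial.map_C]
    congr 1
    have : ψ (C a) = (ψ.comp C) a := rfl
    rw [this]
    exact map_intCast (ψ.comp C) a |>.trans rfl
  have h2 : mapRingHom ψ (PF N F).leadingCoeff ≠ 0 := by
    rw [h1, Ne, C_eq_zero]
    exact ha
  refine ⟨?_, ?_, ?_⟩
  · unfold fm
    rw [integralNormalization_map _ _ h2]
  · rw [leadingCoeff_map_of_leadingCoeff_ne_zero _ h2, h1]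
  · rw [natDegree_map_of_leadingCoeff_ne_zero _ h2]
    exact h0

end Pool.Agent.L7h72.NP
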