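import Pool.Agent.L7h72.NP.Fib

set_option autoImplicit false
set_option linter.unusedVariables false

/-! # The number of the points on the fibres (project NP, helper72) -/

open Polynomial

namespace Pool.Agent.L7h72.NP

/-- the field of the rational functions with rational coefficients -/
abbrev K0 : Type := FractionRing ℤ[X]

/-- its algebraic closure -/
abbrev K1 : Type := AlgebraicClosure K0

theorem spread' {A K W : Type} [CommRing A] [Field K] [IsAlgClosed K] [Field W] (ι : A →+* W)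
    (hι : Function.Injective ι) (f : A[X][X]) (hf : f.Monic) (h0 : f.natDegree ≠ 0) (ψ : A →+* K)
    (hirr : Irreducible (f.map (mapRingHom ψ))) : Irreducible (f.map (mapRingHom ι)) := by
  letI := ι.toAlgebra
  haveI : FaithfulSMul A W := (faithfulSMul_iff_algebraMap_injective _ _).2 hι
  exact spread (W := W) f hf h0 ψ hirr

theorem PF_ne {N : ℕ} {F : MvPolynomial (Fin 2) ℤ} (h0 : (PF N F).natDegree ≠ 0) : PF N F ≠ 0 := by
  intro h
  rw [h, natDegree_zero] at h0
  exact h0 rfl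

theorem fm_monic {N : ℕ} {F : MvPolynomial (Fin 2) ℤ} (h0 : (PF N F).natDegree ≠ 0) : (fm N F).Monic :=
  monic_integralNormalization (PF_ne h0)

theorem fm_natDegree (N : ℕ) (F : MvPolynomial (Fin 2) ℤ) : (fm N F).natDegree = (PF N F).natDegree :=
  natDegree_integralNormalization

theorem generic_irr {N : ℕ} {F : MvPolynomial (Fin 2) ℤ} (hF : NC F) {a : ℤ} (ha : a ≠ 0)
    (hl : (PF N F).leadingCoeff = C (C a)) (h0 : (PF N F).natDegree ≠ 0) :
    Irreducible ((fm N F).map (mapRingHom ((algebraMap K0 K1).comp (algebraMap ℤ[X] K0)))) := by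
  obtain ⟨t, ht⟩ := hF
  obtain ⟨ψ, hψ⟩ : ∃ ψ : ℤ[X] →+* ℂ, ψ X = t := ⟨eval₂RingHom (Int.castRingHom ℂ) t, by simp⟩
  have ha' : ((a : ℤ) : ℂ) ≠ 0 := by exact_mod_cast ha
  obtain ⟨h1, h2, h3⟩ := fm_spec hl h0 ψ ha'
  have h4 : Irreducible ((fm N F).map (mapRingHom ψ)) := by
    rw [h1, iN_irr _ _ ha' h2 h3, PF_map, Ph_irr, hψ]
    exact ht
  have hι : Function.Injective ((algebraMap K0 K1).comp (algebraMap ℤ[X] K0)) := by
    rw [RingHom.coe_comp]
    exact (algebraMap K0 K1).injective.comp (IsFractionRing.injective ℤ[X] K0)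
  exact spread' _ hι (fm N F)
    (fm_monic h0) (by rw [fm_natDegree]; exact h0) ψ h4

/-- the largest degree of a coefficient -/
noncomputable def idg {R : Type} [CommRing R] (P : R[X][X]) : ℕ := P.support.sup (fun i => (P.coeff i).natDegree)

theorem le_idg {R : Type} [CommRing R] (P : R[X][X]) (i : ℕ) : (P.coeff i).natDegree ≤ idg P := by
  by_cases h : i ∈ P.support
  · exact Finset.le_sup (f := fun i => (P.coeff i).natDegree) h
  · rw [notMem_support_iff.1 h, natDegree_zero]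
    exact Nat.zero_le _

theorem map_idg {R S : Type} [CommRing R] [CommRing S] (P : R[X][X]) (φ : R →+* S) (i : ℕ) :
    ((P.map (mapRingHom φ)).coeff i).natDegree ≤ idg P := by
  rw [coeff_map, coe_mapRingHom]
  exact natDegree_map_le.trans (le_idg P i)

/-- the new coordinates of a point -/
def coordE {K : Type} [Field K] (N : ℕ) (b : K) (hb : b ≠ 0) : (Fin 2 → K) ≃ K × K where
  toFun x := (x 0 - x 1 ^ N, b * x 1)
  invFun z := ![z.1 + (b⁻¹ * z.2) ^ N, b⁻¹ * z.2]
  left_inv x := by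
    have h : b⁻¹ * (b * x 1) = x 1 := by rw [← mul_assoc, inv_mul_cancel₀ hb, one_mul]
    funext i
    fin_cases i
    · simp [h]
    · simp [h]
  right_inv z := by
    have h : b * (b⁻¹ * z.2) = z.2 := by rw [← mul_assoc, mul_inv_cancel₀ hb, one_mul]
    apply Prod.ext
    · simp
    · simp [h]

theorem count_eq {p : ℕ} [Fact p.Prime] {N : ℕ} {F : MvPolynomial (Fin 2) ℤ} {a : ℤ}
    (hl : (PF N F).leadingCoeff = C (C a)) (h0 : (PF N F).natDegree ≠ 0) (r : ZMod p)
    (ha : (a : ZMod p) ≠ 0) (ψ : ℤ[X] →+* ZMod p) (hψ : ψ X = r) :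
    {z : ZMod p × ZMod p | evalEval z.1 z.2 ((fm N F).map (mapRingHom ψ)) = 0}.ncard =
      Nat.card {x : Fin 2 → ZMod p // MvPolynomial.aeval x F = r} := by
  obtain ⟨h1, h2, h3⟩ := fm_spec hl h0 ψ ha
  rw [← Nat.card_coe_set_eq]
  symm
  refine Nat.card_congr ((coordE N (a : ZMod p) ha).subtypeEquiv fun x => ?_)
  show _ ↔ evalEval (x 0 - x 1 ^ N) ((a : ZMod p) * x 1) ((fm N F).map (mapRingHom ψ)) = 0
  rw [h1, iN_eval _ _ ha h2 h3, PF_map, Ph_eval, map_sub, MvPolynomial.eval_C, sub_eq_zero, hψ]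
  have e : ![x 0 - x 1 ^ N + x 1 ^ N, x 1] = x := by
    funext i
    fin_cases i
    · simp
    · simp
  rw [e, MvPolynomial.eval_map, MvPolynomial.aeval_def]
  rfl

/-- **the fibres** -/
theorem fiber {F : MvPolynomial (Fin 2) ℤ} (hF : NC F) {N : ℕ} (hN : F.totalDegree < N) :
    ∃ (D : ℤ[X]) (Cc : ℝ), D ≠ 0 ∧ 0 ≤ Cc ∧ ∀ (p : ℕ) [Fact p.Prime] (r : ZMod p), aeval r D ≠ 0 →
      (∃ ψ : ℤ[X] →+* AlgebraicClosure (ZMod p), ψ X = algebraMap _ _ r ∧
        Irreducible ((PF N F).map (mapRingHom ψ)) ∧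
        (∃ b : AlgebraicClosure (ZMod p), b ≠ 0 ∧ ((PF N F).map (mapRingHom ψ)).leadingCoeff = C b) ∧
        ((PF N F).map (mapRingHom ψ)).natDegree ≠ 0) ∧
      |(Nat.card {x : Fin 2 → ZMod p // MvPolynomial.aeval x F = r} : ℝ) - p| ≤ Cc * √(p : ℝ) := by
  obtain ⟨a, ha, hl, h0⟩ := PF_lead hN (NC_nonconst hF)
  have hmon := fm_monic h0
  have hpos : 0 < (fm N F).natDegree := by
    rw [fm_natDegree]
    omega
  have hgen := generic_irr hF ha hl h0
  obtain ⟨D1, hD1, hbn⟩ := Pool.Agent.R410.LW.bn_poly (k := K0) (kb := K1) (fm N F) hmon hpos hgen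
  obtain ⟨A₀, B₀, D', hD', hAB⟩ := Pool.Agent.R410.LW.bezout
    (ι := (algebraMap K0 K1).comp (algebraMap ℤ[X] K0))
    ((algebraMap K0 K1).injective.comp (IsFractionRing.injective ℤ[X] K0)) hmon hgen
  refine ⟨C a * (D1 * D'.leadingCoeff),
    |Pool.Agent.R410.PW.WC (fm N F).natDegree (idg (fm N F)) D'.natDegree|, ?_, abs_nonneg _, ?_⟩
  · refine mul_ne_zero ?_ (mul_ne_zero hD1 (leadingCoeff_ne_zero.2 hD'))
    rw [Ne, C_eq_zero]
    exact ha
  · intro p _ r hr
    obtain ⟨ψ, hψ⟩ : ∃ ψ : ℤ[X] →+* ZMod p, ψ = (aeval r : ℤ[X] →ₐ[ℤ] ZMod p).toRingHom := ⟨_, rfl⟩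
    have hψX : ψ X = r := by
      rw [hψ]
      show aeval r (X : ℤ[X]) = r
      rw [aeval_X]
    have hr' : ψ (C a * (D1 * D'.leadingCoeff)) ≠ 0 := by
      rw [hψ]
      exact hr
    rw [map_mul, map_mul] at hr'
    have ha0 : ψ (C a) ≠ 0 := left_ne_zero_of_mul hr'
    have hD10 : ψ D1 ≠ 0 := left_ne_zero_of_mul (right_ne_zero_of_mul hr')
    have hD'0 : ψ D'.leadingCoeff ≠ 0 := right_ne_zero_of_mul (right_ne_zero_of_mul hr')
    have ha1 : (a : ZMod p) ≠ 0 := by
      have e : ψ (C a) = (ψ.comp C) a := rfl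
      rw [e] at ha0
      have e2 : (ψ.comp (C : ℤ →+* ℤ[X])) a = (a : ZMod p) := map_intCast (ψ.comp C) a |>.trans rfl
      rwa [e2] at ha0
    obtain ⟨k, hk⟩ : ∃ k : ℤ[X] →+* AlgebraicClosure (ZMod p), k = (algebraMap (ZMod p) _).comp ψ := ⟨_, rfl⟩
    have hinj : Function.Injective (algebraMap (ZMod p) (AlgebraicClosure (ZMod p))) :=
      (algebraMap (ZMod p) (AlgebraicClosure (ZMod p))).injective
    have hka : (a : AlgebraicClosure (ZMod p)) ≠ 0 := by
      intro h
      apply ha1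
      apply hinj
      rw [map_intCast, h, map_zero]
    have hkD1 : k D1 ≠ 0 := by
      rw [hk, RingHom.comp_apply]
      intro h
      apply hD10
      apply hinj
      rw [h, map_zero]
    have hirr := hbn (AlgebraicClosure (ZMod p)) k hkD1
    obtain ⟨q1, q2, q3⟩ := fm_spec hl h0 k hka
    constructor
    · refine ⟨k, ?_, ?_, ⟨_, hka, q2⟩, q3⟩
      · rw [hk, RingHom.comp_apply, hψX]
      · rw [q1, iN_irr _ _ hka q2 q3] at hirr
        exact hirr
    · have hirr2 : Irreducible (((fm N F).map (mapRingHom ψ)).map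
          (mapRingHom (algebraMap (ZMod p) (AlgebraicClosure (ZMod p))))) := by
        rw [Polynomial.map_map, mapRingHom_comp, ← hk]
        exact hirr
      have hAB' : A₀.map (mapRingHom ψ) * (fm N F).map (mapRingHom ψ) +
          B₀.map (mapRingHom ψ) * derivative ((fm N F).map (mapRingHom ψ)) = C (D'.map ψ) := by
        have h := congrArg (Polynomial.map (mapRingHom ψ)) hAB
        rw [Polynomial.map_add, Polynomial.map_mul, Polynomial.map_mul, Polynomial.map_C,
          ← derivative_map] at h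
        exact h
      have hDne : D'.map ψ ≠ 0 := by
        intro h
        apply hD'0
        have h2 := congrArg (fun q => coeff q D'.natDegree) h
        simp only [coeff_map, coeff_zero] at h2
        exact h2
      have hw := Pool.Agent.R410.PW.weil (F := ZMod p) (AlgebraicClosure (ZMod p))
        (f := (fm N F).map (mapRingHom ψ)) (hmon.map _) (by rw [hmon.natDegree_map]; exact hpos)
        hAB' hDne (δ := D'.natDegree) natDegree_map_le (d := idg (fm N F)) (map_idg (fm N F) ψ) hirr2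
      rw [count_eq hl h0 r ha1 ψ hψX, hmon.natDegree_map, Nat.card_zmod] at hw
      refine hw.trans ?_
      apply mul_le_mul_of_nonneg_right (le_abs_self _) (Real.sqrt_nonneg _)

end Pool.Agent.L7h72.NP
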