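import Mathlib

set_option autoImplicit false

/-! # A change of the variables which makes the leading coefficient constant (project NP, helper72) -/

open Polynomial

namespace Pool.Agent.L7h72.NP

section
variable {R S : Type} [CommRing R] [CommRing S]

/-- the substitution `x ↦ X + Y ^ N`, `y ↦ Y` -/
noncomputable def Ph (R : Type) [CommRing R] (N : ℕ) : MvPolynomial (Fin 2) R →ₐ[R] R[X][X] :=
  MvPolynomial.aeval ![C X + X ^ N, X]

/-- the inverse substitution -/
noncomputable def Ps (R : Type) [CommRing R] (N : ℕ) : R[X][X] →ₐ[R] MvPolynomial (Fin 2) R :=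
  aevalAeval (MvPolynomial.X 0 - MvPolynomial.X 1 ^ N) (MvPolynomial.X 1)

theorem Ph_X0 (N : ℕ) : Ph R N (MvPolynomial.X 0) = C X + X ^ N := by
  unfold Ph
  rw [MvPolynomial.aeval_X]
  rfl

theorem Ph_X1 (N : ℕ) : Ph R N (MvPolynomial.X 1) = X := by
  unfold Ph
  rw [MvPolynomial.aeval_X]
  rfl

theorem Ph_C (N : ℕ) (r : R) : Ph R N (MvPolynomial.C r) = C (C r) := by
  have h := (Ph R N).commutes r
  exact h

theorem Ps_CX (N : ℕ) : Ps R N (C X) = MvPolynomial.X 0 - MvPolynomial.X 1 ^ N := by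
  unfold Ps
  rw [aevalAeval_X]

theorem Ps_X (N : ℕ) : Ps R N X = MvPolynomial.X 1 := by
  unfold Ps
  rw [aevalAeval_Y]

theorem Ps_Ph (N : ℕ) : (Ps R N).comp (Ph R N) = AlgHom.id R _ := by
  apply MvPolynomial.algHom_ext
  intro i
  fin_cases i
  · show Ps R N (Ph R N (MvPolynomial.X 0)) = MvPolynomial.X 0
    rw [Ph_X0, map_add, map_pow, Ps_CX, Ps_X]
    ring
  · show Ps R N (Ph R N (MvPolynomial.X 1)) = MvPolynomial.X 1
    rw [Ph_X1, Ps_X]

theorem Ph_Ps (N : ℕ) : (Ph R N).comp (Ps R N) = AlgHom.id R _ := by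
  apply (aevalAevalEquiv R R[X][X]).symm.injective
  show ((Ph R N (Ps R N (C X)), Ph R N (Ps R N X)) : R[X][X] × R[X][X]) = (C X, X)
  rw [Ps_CX, Ps_X, map_sub, map_pow, Ph_X0, Ph_X1]
  congr 1
  ring

/-- the isomorphism -/
noncomputable def PhE (R : Type) [CommRing R] (N : ℕ) : MvPolynomial (Fin 2) R ≃ₐ[R] R[X][X] :=
  AlgEquiv.ofAlgHom (Ph R N) (Ps R N) (Ph_Ps N) (Ps_Ph N)

theorem PhE_apply (N : ℕ) (F : MvPolynomial (Fin 2) R) : PhE R N F = Ph R N F := rfl

theorem Ph_irr (N : ℕ) (F : MvPolynomial (Fin 2) R) : Irreducible (Ph R N F) ↔ Irreducible F := by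
  rw [← PhE_apply]
  exact MulEquiv.irreducible_iff (PhE R N)

theorem Ph_dvd (N : ℕ) (F G : MvPolynomial (Fin 2) R) : Ph R N F ∣ Ph R N G ↔ F ∣ G := by
  rw [← PhE_apply, ← PhE_apply]
  exact map_dvd_iff (PhE R N)

theorem Ph_map (φ : R →+* S) (N : ℕ) (F : MvPolynomial (Fin 2) R) :
    Ph S N (MvPolynomial.map φ F) = (Ph R N F).map (mapRingHom φ) := by
  have h : (Ph S N).toRingHom.comp (MvPolynomial.map φ) =
      (mapRingHom (mapRingHom φ)).comp (Ph R N).toRingHom := by
    apply MvPolynomial.ringHom_ext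
    · intro r
      show Ph S N (MvPolynomial.map φ (MvPolynomial.C r)) = (Ph R N (MvPolynomial.C r)).map (mapRingHom φ)
      rw [MvPolynomial.map_C, Ph_C, Ph_C]
      simp
    · intro i
      fin_cases i
      · show Ph S N (MvPolynomial.map φ (MvPolynomial.X 0)) = (Ph R N (MvPolynomial.X 0)).map (mapRingHom φ)
        rw [MvPolynomial.map_X, Ph_X0, Ph_X0]
        simp
      · show Ph S N (MvPolynomial.map φ (MvPolynomial.X 1)) = (Ph R N (MvPolynomial.X 1)).map (mapRingHom φ)
        rw [MvPolynomial.map_X, Ph_X1, Ph_X1]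
        simp
  exact congrArg (fun g => g F) h

theorem Ph_eval (N : ℕ) (F : MvPolynomial (Fin 2) R) (x y : R) :
    evalEval x y (Ph R N F) = MvPolynomial.eval ![x + y ^ N, y] F := by
  have h : (evalEvalRingHom x y).comp (Ph R N).toRingHom = MvPolynomial.eval ![x + y ^ N, y] := by
    apply MvPolynomial.ringHom_ext
    · intro r
      show evalEval x y (Ph R N (MvPolynomial.C r)) = MvPolynomial.eval ![x + y ^ N, y] (MvPolynomial.C r)
      rw [Ph_C, MvPolynomial.eval_C]
      simp [evalEval]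
    · intro i
      fin_cases i
      · show evalEval x y (Ph R N (MvPolynomial.X 0)) =
          MvPolynomial.eval ![x + y ^ N, y] (MvPolynomial.X 0)
        rw [Ph_X0, MvPolynomial.eval_X]
        simp [evalEval]
      · show evalEval x y (Ph R N (MvPolynomial.X 1)) =
          MvPolynomial.eval ![x + y ^ N, y] (MvPolynomial.X 1)
        rw [Ph_X1, MvPolynomial.eval_X]
        simp [evalEval]
  exact congrArg (fun g => g F) h

/-- the weight of a monomial -/
def wt (N : ℕ) (m : Fin 2 →₀ ℕ) : ℕ := N * m 0 + m 1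

theorem wt_inj {N : ℕ} {m m' : Fin 2 →₀ ℕ} (h1 : m 1 < N) (h2 : m' 1 < N) (h : wt N m = wt N m') :
    m = m' := by
  unfold wt at h
  have e1 : m 1 = m' 1 := by
    have := congrArg (· % N) h
    simp only [Nat.mul_add_mod, Nat.mod_eq_of_lt h1, Nat.mod_eq_of_lt h2] at this
    exact this
  have e0 : m 0 = m' 0 := by
    have hN : 0 < N := by omega
    have : N * m 0 = N * m' 0 := by omega
    exact Nat.eq_of_mul_eq_mul_left hN this
  ext i
  fin_cases i
  · exact e0
  · exact e1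

theorem Ph_monomial (N : ℕ) (m : Fin 2 →₀ ℕ) (r : R) :
    Ph R N (MvPolynomial.monomial m r) = C (C r) * ((X ^ N + C X) ^ m 0 * X ^ m 1) := by
  unfold Ph
  rw [MvPolynomial.aeval_monomial, Finsupp.prod_fintype _ _ (fun i => pow_zero _), Fin.prod_univ_two]
  have : (algebraMap R R[X][X]) r = C (C r) := rfl
  rw [this]
  congr 2
  show (C X + X ^ N) ^ m 0 = _
  rw [add_comm]

theorem monic_aux (N : ℕ) (hN : N ≠ 0) (m : Fin 2 →₀ ℕ) :
    ((X ^ N + C (X : R[X])) ^ m 0 * X ^ m 1 : R[X][X]).Monic := by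
  exact ((monic_X_pow_add_C _ hN).pow _).mul (monic_X_pow _)

theorem natDegree_aux [Nontrivial R] (N : ℕ) (hN : N ≠ 0) (m : Fin 2 →₀ ℕ) :
    ((X ^ N + C (X : R[X])) ^ m 0 * X ^ m 1 : R[X][X]).natDegree = wt N m := by
  rw [((monic_X_pow_add_C _ hN).pow _).natDegree_mul (monic_X_pow _),
    (monic_X_pow_add_C _ hN).natDegree_pow, natDegree_X_pow_add_C, natDegree_X_pow]
  unfold wt
  ring

theorem Ph_eq_sum (N : ℕ) (F : MvPolynomial (Fin 2) R) :
    Ph R N F = ∑ m ∈ F.support, C (C (F.coeff m)) * ((X ^ N + C X) ^ m 0 * X ^ m 1) := by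
  conv_lhs => rw [F.as_sum]
  rw [map_sum]
  exact Finset.sum_congr rfl fun m _ => Ph_monomial N m _

/-- the leading coefficient -/
theorem Ph_lead [IsDomain R] (N : ℕ) (F : MvPolynomial (Fin 2) R) (hF : F ≠ 0)
    (hN : F.totalDegree < N) : ∃ m ∈ F.support, (∀ m' ∈ F.support, wt N m' ≤ wt N m) ∧
      (Ph R N F).natDegree = wt N m ∧ (Ph R N F).leadingCoeff = C (F.coeff m) := by
  have hN0 : N ≠ 0 := by omega
  have hlt : ∀ m ∈ F.support, m 1 < N := by
    intro m hm
    have h1 := MvPolynomial.le_totalDegree hm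
    rw [Finsupp.sum_fintype _ _ (fun _ => rfl), Fin.sum_univ_two] at h1
    omega
  obtain ⟨m, hm, hmax⟩ := Finset.exists_max_image F.support (wt N)
    (MvPolynomial.support_nonempty.2 hF)
  refine ⟨m, hm, hmax, ?_⟩
  have hdeg : (Ph R N F).natDegree ≤ wt N m := by
    rw [Ph_eq_sum]
    apply natDegree_sum_le_of_forall_le
    intro m' hm'
    refine (natDegree_C_mul_le _ _).trans ?_
    rw [natDegree_aux N hN0]
    exact hmax m' hm'
  have hcoeff : (Ph R N F).coeff (wt N m) = C (F.coeff m) := by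
    rw [Ph_eq_sum, finset_sum_coeff, Finset.sum_eq_single m]
    · rw [coeff_C_mul]
      have h1 := (monic_aux (R := R) N hN0 m).coeff_natDegree
      rw [natDegree_aux N hN0] at h1
      rw [h1, mul_one]
    · intro m' hm' hne
      rw [coeff_C_mul]
      have h1 : ((X ^ N + C (X : R[X])) ^ m' 0 * X ^ m' 1 : R[X][X]).coeff (wt N m) = 0 := by
        apply coeff_eq_zero_of_natDegree_lt
        rw [natDegree_aux N hN0]
        refine lt_of_le_of_ne (hmax m' hm') ?_
        intro h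
        exact hne (wt_inj (hlt _ hm') (hlt _ hm) h)
      rw [h1, mul_zero]
    · intro h
      exact absurd hm h
  have hc0 : C (F.coeff m) ≠ 0 := by
    rw [Ne, C_eq_zero]
    exact MvPolynomial.mem_support_iff.1 hm
  have hd : (Ph R N F).natDegree = wt N m := by
    apply le_antisymm hdeg
    apply le_natDegree_of_ne_zero
    rw [hcoeff]
    exact hc0
  refine ⟨hd, ?_⟩
  rw [leadingCoeff, hd, hcoeff]

end

end Pool.Agent.L7h72.NP
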