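import Pool.Agent.L7h72.NP.Fam

set_option autoImplicit false
set_option linter.unusedVariables false

/-! # All noncomposite polynomials of bounded degree and height (project NP, helper72) -/

namespace Pool.Agent.L7h72.NP

open MvPolynomial
open Pool.Agent.H256R2.SC (ff)
open Pool.Agent.H256R2.SC.LG (ana)

/-- choosing representatives of the classes of proportional polynomials -/
theorem norm_family (Pr : MvPolynomial (Fin 2) ℤ → Prop)
    (hPr : ∀ F, ∀ u : ℤ, u ≠ 0 → Pr F → Pr (C u * F)) (S : Finset (MvPolynomial (Fin 2) ℤ)) :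
    (∀ F ∈ S, Pr F) → ∃ T : Finset (MvPolynomial (Fin 2) ℤ), (∀ G ∈ T, Pr G) ∧
      (∀ F ∈ S, ∃ G ∈ T, ∃ a : ℤ, a ≠ 0 ∧ C a * F = G) ∧
      ∀ G ∈ T, ∀ G' ∈ T, ∀ a b : ℤ, a ≠ 0 → b ≠ 0 → C a * G = C b * G' → G = G' := by
  classical
  induction S using Finset.induction_on with
  | empty =>
    intro _
    exact ⟨∅, by simp, by simp, by simp⟩
  | insert F S hF ih =>
    intro hS
    obtain ⟨T, hT1, hT2, hT3⟩ := ih (fun G hG => hS G (Finset.mem_insert_of_mem hG))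
    by_cases h : ∃ G ∈ T, ∃ u v : ℤ, u ≠ 0 ∧ v ≠ 0 ∧ C u * G = C v * F
    · obtain ⟨G, hG, u, v, hu, hv, huv⟩ := h
      refine ⟨T.image (fun H => C u * H), ?_, ?_, ?_⟩
      · intro H hH
        rw [Finset.mem_image] at hH
        obtain ⟨H, hH, rfl⟩ := hH
        exact hPr H u hu (hT1 H hH)
      · intro H hH
        rcases Finset.mem_insert.1 hH with rfl | hH
        · exact ⟨C u * G, Finset.mem_image.2 ⟨G, hG, rfl⟩, v, hv, huv.symm⟩
        · obtain ⟨G', hG', a, ha, haG⟩ := hT2 H hH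
          refine ⟨C u * G', Finset.mem_image.2 ⟨G', hG', rfl⟩, u * a, mul_ne_zero hu ha, ?_⟩
          rw [← haG, C_mul, mul_assoc]
      · intro H hH H' hH' a b ha hb hab
        rw [Finset.mem_image] at hH hH'
        obtain ⟨H, hH, rfl⟩ := hH
        obtain ⟨H', hH', rfl⟩ := hH'
        have h1 : C (a * u) * H = C (b * u) * H' := by
          rw [C_mul, C_mul, mul_assoc, mul_assoc]
          exact hab
        rw [hT3 H hH H' hH' _ _ (mul_ne_zero ha hu) (mul_ne_zero hb hu) h1]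
    · push Not at h
      refine ⟨insert F T, ?_, ?_, ?_⟩
      · intro G hG
        rcases Finset.mem_insert.1 hG with rfl | hG
        · exact hS _ (Finset.mem_insert_self _ _)
        · exact hT1 G hG
      · intro H hH
        rcases Finset.mem_insert.1 hH with rfl | hH
        · exact ⟨H, Finset.mem_insert_self _ _, 1, one_ne_zero, by rw [C_1, one_mul]⟩
        · obtain ⟨G, hG, a, ha, haG⟩ := hT2 H hH
          exact ⟨G, Finset.mem_insert_of_mem hG, a, ha, haG⟩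
      · intro H hH H' hH' a b ha hb hab
        rcases Finset.mem_insert.1 hH with h1 | h1
        · rcases Finset.mem_insert.1 hH' with h2 | h2
          · rw [h1, h2]
          · rw [h1] at hab
            exact absurd hab.symm (h H' h2 b a hb ha)
        · rcases Finset.mem_insert.1 hH' with h2 | h2
          · rw [h2] at hab
            exact absurd hab (h H h1 a b ha hb)
          · exact hT3 H h1 H' h2 a b ha hb hab

theorem NC_mul {F : MvPolynomial (Fin 2) ℤ} (h : NC F) {u : ℤ} (hu : u ≠ 0) : NC (C u * F) := by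
  obtain ⟨t, ht⟩ := h
  refine ⟨(u : ℂ) * t, ?_⟩
  have e : MvPolynomial.map (Int.castRingHom ℂ) (C u * F) - C ((u : ℂ) * t) =
      C (u : ℂ) * (MvPolynomial.map (Int.castRingHom ℂ) F - C t) := by
    rw [map_mul, map_C, C_mul, mul_sub]
    rfl
  rw [e]
  have hu' : (u : ℂ) ≠ 0 := by exact_mod_cast hu
  exact (irreducible_isUnit_mul ((isUnit_iff_ne_zero.2 hu').map C)).2 ht

theorem NC_sub {F : MvPolynomial (Fin 2) ℤ} (h : NC F) (u : ℤ) : NC (F - C u) := by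
  obtain ⟨t, ht⟩ := h
  refine ⟨t - u, ?_⟩
  have e : MvPolynomial.map (Int.castRingHom ℂ) (F - C u) - C (t - (u : ℂ)) =
      MvPolynomial.map (Int.castRingHom ℂ) F - C t := by
    rw [map_sub, map_C, C_sub]
    have : (Int.castRingHom ℂ) u = (u : ℂ) := rfl
    rw [this]
    ring
  rw [e]
  exact ht

/-- there are only finitely many polynomials of bounded degree and height -/
theorem finite_family (k : ℕ) : {F : MvPolynomial (Fin 2) ℤ | F.totalDegree ≤ k ∧ ∀ m, |F.coeff m| ≤ k}.Finite := by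
  classical
  -- the exponents
  obtain ⟨E, hE⟩ : ∃ E : Finset (Fin 2 →₀ ℕ), ∀ m : Fin 2 →₀ ℕ, m 0 ≤ k → m 1 ≤ k → m ∈ E := by
    refine ⟨((Finset.range (k + 1)) ×ˢ (Finset.range (k + 1))).image
      (fun z => Finsupp.single 0 z.1 + Finsupp.single 1 z.2), fun m h0 h1 => ?_⟩
    rw [Finset.mem_image]
    refine ⟨(m 0, m 1), ?_, ?_⟩
    · rw [Finset.mem_product, Finset.mem_range, Finset.mem_range]
      exact ⟨by show m 0 < k + 1; omega, by show m 1 < k + 1; omega⟩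
    · ext i
      fin_cases i
      · simp
      · simp
  apply Set.Finite.subset (Set.Finite.image (fun g : (Fin 2 →₀ ℕ) → ℤ => ∑ m ∈ E, MvPolynomial.monomial m (g m))
    (s := {g : (Fin 2 →₀ ℕ) → ℤ | (∀ m ∈ E, |g m| ≤ (k : ℤ)) ∧ ∀ m ∉ E, g m = 0}) ?_)
  · rintro F ⟨h1, h2⟩
    refine ⟨fun m => F.coeff m, ⟨fun m _ => h2 m, fun m hm => ?_⟩, ?_⟩
    · by_contra hne
      apply hm
      have h3 := le_totalDegree (mem_support_iff.2 hne)
      rw [Finsupp.sum_fintype _ _ (fun _ => rfl), Fin.sum_univ_two] at h3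
      apply hE <;> omega
    · have h3 : F.support ⊆ E := by
        intro m hm
        have h3 := le_totalDegree hm
        rw [Finsupp.sum_fintype _ _ (fun _ => rfl), Fin.sum_univ_two] at h3
        apply hE <;> omega
      show ∑ m ∈ E, MvPolynomial.monomial m (F.coeff m) = F
      conv_rhs => rw [F.as_sum]
      symm
      apply Finset.sum_subset h3
      intro m _ hm
      rw [notMem_support_iff.1 hm, map_zero]
  · have h1 : {g : (Fin 2 →₀ ℕ) → ℤ | (∀ m ∈ E, |g m| ≤ (k : ℤ)) ∧ ∀ m ∉ E, g m = 0} ⊆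
        (fun g : (E → Finset.Icc (-(k : ℤ)) k) => fun m => if h : m ∈ E then ((g ⟨m, h⟩ : _) : ℤ) else 0) ''
          Set.univ := by
      rintro g ⟨hg1, hg2⟩
      refine ⟨fun m => ⟨g m.1, Finset.mem_Icc.2 (abs_le.1 (hg1 m.1 m.2))⟩, Set.mem_univ _, ?_⟩
      funext m
      by_cases hm : m ∈ E
      · simp only [dif_pos hm]
      · simp only [dif_neg hm]
        exact (hg2 m hm).symm
    exact (Set.Finite.image _ Set.finite_univ).subset h1

/-- the function `ff` tends to infinity -/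
theorem ff_large (V : ℝ) : ∃ X₂ : ℝ, ∀ X : ℝ, X₂ ≤ X → V ≤ ff X := by
  obtain ⟨c', hc', X₀, hX₀⟩ := ana (c := 1) (C := 1) (y₀ := 0) one_pos one_pos
  refine ⟨max X₀ (Real.exp (10 * c' * V)), fun X hX => ?_⟩
  obtain ⟨q1, q2⟩ := max_le_iff.1 hX
  obtain ⟨-, -, -, -, a5, a6, -⟩ := hX₀ X q1 _ _ rfl rfl _ rfl
  have h1 : Real.log X / 10 ≤ c' * ff X := a5.trans a6
  have h2 : 10 * c' * V ≤ Real.log X := by
    rw [← Real.log_exp (10 * c' * V)]
    exact Real.log_le_log (Real.exp_pos _) q2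
  have h3 : c' * V ≤ c' * ff X := by linarith
  exact le_of_mul_le_mul_left h3 hc'

/-- **all noncomposite polynomials of bounded degree and height at once** -/
theorem all_poly (k : ℕ) : ∃ c : ℝ, 0 < c ∧ ∃ Z₀ : ℝ, ∀ Z : ℕ, Z₀ ≤ Z → ∀ M : Fin 2 → ℤ,
    ∃ x : Fin 2 → ℤ, (∀ i, M i < x i ∧ x i ≤ M i + Z) ∧
      ∀ F : MvPolynomial (Fin 2) ℤ, F.totalDegree ≤ k → (∀ m, |F.coeff m| ≤ k) → NC F →
        ∀ n : ℤ, |(n : ℝ) - eval x F| ≤ c * ff Z →
          ∃ p : ℕ, p.Prime ∧ (p : ℝ) ≤ (Z : ℝ) ^ (1 / 10 : ℝ) ∧ (p : ℤ) ∣ n := by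
  classical
  obtain ⟨S, hS⟩ : ∃ S : Finset (MvPolynomial (Fin 2) ℤ), ∀ F, F ∈ S ↔
      ((F.totalDegree ≤ k ∧ ∀ m, |F.coeff m| ≤ k) ∧ NC F) := by
    refine ⟨(finite_family k).toFinset.filter NC, fun F => ?_⟩
    rw [Finset.mem_filter, Set.Finite.mem_toFinset]
    rfl
  obtain ⟨T, hT1, hT2, hT3⟩ := norm_family (fun F => NC F ∧ F.coeff 0 = 0) (by
    rintro F u hu ⟨h1, h2⟩
    refine ⟨NC_mul h1 hu, ?_⟩
    rw [coeff_C_mul, h2, mul_zero]) (S.image (fun F => F - C (F.coeff 0))) (by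
    intro G hG
    rw [Finset.mem_image] at hG
    obtain ⟨F, hF, rfl⟩ := hG
    refine ⟨NC_sub ((hS F).1 hF).2 _, ?_⟩
    rw [coeff_sub, coeff_C, if_pos rfl, sub_self])
  -- the multiplier of each polynomial
  have hex : ∀ F : {F // F ∈ S}, ∃ G : {G // G ∈ T}, ∃ a : ℤ, a ≠ 0 ∧ C a * (F.1 - C (F.1.coeff 0)) = G.1 := by
    intro F
    obtain ⟨G, hG, a, ha, haG⟩ := hT2 _ (Finset.mem_image.2 ⟨F.1, F.2, rfl⟩)
    exact ⟨⟨G, hG⟩, a, ha, haG⟩
  choose g a ha hag using hex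
  obtain ⟨A, hA⟩ : ∃ A : ℕ, ∀ F, (a F).natAbs ≤ A := by
    refine ⟨∑ F, (a F).natAbs, fun F => ?_⟩
    exact Finset.single_le_sum (f := fun F => (a F).natAbs) (fun _ _ => Nat.zero_le _) (Finset.mem_univ F)
  have hA' : ∀ F, |((a F : ℤ) : ℝ)| ≤ A := by
    intro F
    have h1 := hA F
    have h2 : (((a F).natAbs : ℕ) : ℝ) = |((a F : ℤ) : ℝ)| := by
      rw [Nat.cast_natAbs]
      push_cast
      rfl
    rw [← h2]
    exact_mod_cast h1
  obtain ⟨c, hc, Z₀, hmain⟩ := family (fun G : {G // G ∈ T} => G.1) (fun G => (hT1 G.1 G.2).1)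
    (fun G => (hT1 G.1 G.2).2) (fun G G' a b ha hb hab => Subtype.ext (hT3 _ G.2 _ G'.2 a b ha hb hab)) A
  obtain ⟨X₂, hX₂⟩ := ff_large (2 * (A * k) / c)
  refine ⟨c / (2 * (A + 1)), by positivity, max Z₀ X₂, fun Z hZ M => ?_⟩
  obtain ⟨q1, q2⟩ := max_le_iff.1 hZ
  obtain ⟨x, hx1, hx2⟩ := hmain Z q1 M
  refine ⟨x, hx1, fun F hF1 hF2 hF3 n hn => ?_⟩
  have hF : F ∈ S := (hS F).2 ⟨⟨hF1, hF2⟩, hF3⟩
  obtain ⟨Fs, hFs⟩ : ∃ Fs : {F // F ∈ S}, Fs.1 = F := ⟨⟨F, hF⟩, rfl⟩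
  have hG : eval x (g Fs).1 = a Fs * (eval x F - F.coeff 0) := by
    rw [← hag Fs, hFs, map_mul, eval_C, map_sub, eval_C]
  have hff : 2 * (A * k) / c ≤ ff Z := hX₂ Z q2
  rw [div_le_iff₀ hc] at hff
  have hA0 : (0 : ℝ) ≤ A := Nat.cast_nonneg A
  have hff0 : 0 ≤ ff Z := by
    have h1 : 0 ≤ c / (2 * (A + 1)) * ff Z := (abs_nonneg _).trans hn
    have h2 : 0 < c / (2 * ((A : ℝ) + 1)) := by positivity
    exact nonneg_of_mul_nonneg_right h1 h2
  obtain ⟨p, hp, hpA, hp1, hp2⟩ := hx2 (g Fs) (a Fs * n - eval x (g Fs).1) (by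
    rw [hG]
    push_cast
    have e1 : (a Fs : ℝ) * n - a Fs * (eval x F - F.coeff 0) = a Fs * (n - eval x F) + a Fs * F.coeff 0 := by
      ring
    rw [e1]
    have h1 : |(a Fs : ℝ) * (n - eval x F)| ≤ A * (c / (2 * (A + 1)) * ff Z) := by
      rw [abs_mul]
      exact mul_le_mul (hA' Fs) hn (abs_nonneg _) hA0
    have h2 : |(a Fs : ℝ) * (F.coeff 0 : ℤ)| ≤ A * k := by
      rw [abs_mul]
      have h3 : |((F.coeff 0 : ℤ) : ℝ)| ≤ k := by exact_mod_cast hF2 0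
      exact mul_le_mul (hA' Fs) h3 (abs_nonneg _) hA0
    have h3 : (A : ℝ) * (c / (2 * (A + 1)) * ff Z) ≤ c * ff Z / 2 := by
      have e2 : (A : ℝ) * (c / (2 * (A + 1)) * ff Z) = (A / (A + 1)) * (c * ff Z / 2) := by
        field_simp
      rw [e2]
      have h4 : (A : ℝ) / (A + 1) ≤ 1 := by
        rw [div_le_one (by positivity)]
        linarith
      have h5 : 0 ≤ c * ff Z / 2 := by positivity
      calc (A : ℝ) / (A + 1) * (c * ff Z / 2) ≤ 1 * (c * ff Z / 2) := mul_le_mul_of_nonneg_right h4 h5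
        _ = _ := one_mul _
    calc |(a Fs : ℝ) * (n - eval x F) + a Fs * F.coeff 0| ≤
          |(a Fs : ℝ) * (n - eval x F)| + |(a Fs : ℝ) * (F.coeff 0 : ℤ)| := abs_add_le _ _
      _ ≤ c * ff Z / 2 + A * k := by linarith
      _ ≤ c * ff Z := by linarith)
  refine ⟨p, hp, hp1, ?_⟩
  have e : eval x (g Fs).1 + (a Fs * n - eval x (g Fs).1) = a Fs * n := by ring
  rw [e] at hp2
  have hpp : Prime (p : ℤ) := Nat.prime_iff_prime_int.1 hp
  rcases hpp.dvd_or_dvd hp2 with h1 | h1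
  · exfalso
    have h2 := Int.natAbs_dvd_natAbs.2 h1
    rw [Int.natAbs_natCast] at h2
    have h3 := Nat.le_of_dvd (Int.natAbs_pos.2 (ha Fs)) h2
    have h4 := hA Fs
    omega
  · exact h1

end Pool.Agent.L7h72.NP
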